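import Pool.Agent.Dyad5.NoBad
import Pool.Agent.Dyad4.Minor

/-!
# Passing to the minor given by the weights, for a class `K` of covers
-/

set_option autoImplicit false
set_option linter.unusedSectionVars false
set_option linter.unusedVariables false

namespace Pool.Agent.Dyad5

open Finset Filter Topology Pool.Agent.Dyad4

variable {ι α : Type*} [Fintype ι] [Fintype α] [DecidableEq ι] [DecidableEq α]
  {S : ι → Finset α} {N : Submonoid ℕ} {w : α → ℤ} {K : Finset α → Prop}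

/-- traces of the covers of `K` that avoid `ZZ` -/
def Kmi (S : ι → Finset α) (w : α → ℤ) (K : Finset α → Prop) (C : Finset α) : Prop :=
  ∃ B, K B ∧ (∀ a ∈ B, a ∉ ZZ S w) ∧ C = B.filter fun a => w a ≠ 0

lemma Kmi_inter {C : Finset α} {B : Finset α} (hZ : ∀ a ∈ B, a ∉ ZZ S w)
    (hC : C = B.filter fun a => w a ≠ 0) (i : {i : ι // ∀ a ∈ S i, w a ≠ 0}) :
    C ∩ mi S w i = B ∩ S i.1 := by
  ext a
  rw [hC, mem_inter, mem_inter, mem_filter]
  unfold mi
  rw [Finset.mem_sdiff]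
  constructor
  · rintro ⟨⟨h1, -⟩, h2, -⟩
    exact ⟨h1, h2⟩
  · rintro ⟨h1, h2⟩
    exact ⟨⟨h1, i.2 a h2⟩, h2, hZ a h1⟩

theorem Kmi_cov (hK : ∀ B, K B → Cov S B) : ∀ C, Kmi S w K C → Cov (mi S w) C := by
  rintro C ⟨B, hB, hZ, hC⟩ i
  rw [Kmi_inter hZ hC i]
  exact hK B hB i.1

theorem ideal_miK (hrow : ∀ i, (S i).Nonempty) (hI : IdealK S K) :
    IdealK (mi S w) (Kmi S w K) := by
  classical
  intro W hW x hx
  have hD0Z : ∀ a, w a = 0 → a ∉ ZZ S w := fun a ha h => ((mem_ZZ_iff hrow).1 h).1 ha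
  set M : ℝ := ∑ a, W a * x a + 1 with hM
  have hM0 : 0 < M := by
    have : 0 ≤ ∑ a, W a * x a := sum_nonneg fun a _ => mul_nonneg (hW a) (hx.1 a)
    linarith
  set x' : α → ℝ := fun a => if a ∈ ZZ S w then 0 else if w a = 0 then x a + 1 else x a with hx'
  set W' : α → ℝ := fun a => if a ∈ ZZ S w then M else if w a = 0 then 0 else W a with hW'
  have hx'0 : ∀ a, 0 ≤ x' a := fun a => by
    simp only [hx']
    have := hx.1 a
    split_ifs <;> linarith
  have hW'0 : ∀ a, 0 ≤ W' a := fun a => by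
    simp only [hW']
    have := hW a
    split_ifs <;> linarith
  have hxP : InPoly S x' := by
    refine ⟨hx'0, fun i => ?_⟩
    by_cases hi : ∀ a ∈ S i, w a ≠ 0
    · have h1 := hx.2 ⟨i, hi⟩
      unfold ev mi at h1
      unfold ev
      have h2 : ∑ a ∈ S i \ ZZ S w, x a = ∑ a ∈ S i \ ZZ S w, x' a := by
        refine sum_congr rfl fun a ha => ?_
        obtain ⟨ha1, ha2⟩ := Finset.mem_sdiff.1 ha
        simp [hx', ha2, hi a ha1]
      rw [h2] at h1
      exact h1.trans (sum_le_sum_of_subset_of_nonneg sdiff_subset fun a _ _ => hx'0 a)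
    · push Not at hi
      obtain ⟨a, ha, haw⟩ := hi
      have h1 : x' a ≤ ev x' (S i) := single_le_sum (f := x') (fun a _ => hx'0 a) ha
      have h2 : x' a = x a + 1 := by simp [hx', hD0Z a haw, haw]
      have := hx.1 a
      linarith
  obtain ⟨B, hB, hBW⟩ := hI W' hW'0 x' hxP
  have hle : ∑ a, W' a * x' a ≤ ∑ a, W a * x a := by
    refine sum_le_sum fun a _ => ?_
    have := mul_nonneg (hW a) (hx.1 a)
    simp only [hx', hW']
    split_ifs with h1 h2
    · simpa using this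
    · simpa using this
    · exact le_rfl
  have hBZ : ∀ a ∈ B, a ∉ ZZ S w := by
    intro a ha haZ
    have h1 : W' a ≤ ev W' B := single_le_sum (f := W') (fun a _ => hW'0 a) ha
    have h2 : W' a = M := by simp [hW', haZ]
    linarith
  refine ⟨B.filter fun a => w a ≠ 0, ⟨B, hB, hBZ, rfl⟩, ?_⟩
  have h1 : ev W (B.filter fun a => w a ≠ 0) = ev W' (B.filter fun a => w a ≠ 0) := by
    unfold ev
    refine sum_congr rfl fun a ha => ?_
    obtain ⟨ha1, ha2⟩ := mem_filter.1 ha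
    simp [hW', hBZ a ha1, ha2]
  have h2 : ev W' (B.filter fun a => w a ≠ 0) ≤ ev W' B :=
    sum_le_sum_of_subset_of_nonneg (filter_subset _ _) fun a _ _ => hW'0 a
  linarith

/-- the lattice condition -/
theorem good_K (hrow : ∀ i, (S i).Nonempty) (hK : ∀ B, K B → Cov S B) (hI : IdealK S K) {m : ℕ}
    (hm : 2 ≤ m) (hcard : ∀ i, (∀ a ∈ S i, w a ≠ 0) → (S i \ ZZ S w).card ≤ m)
    (hint : ∀ D, K D → (∀ a ∈ D, a ∉ ZZ S w) → ∀ i ∈ TT S w,
      (D ∩ S i).card = 1 ∨ (D ∩ S i).card - 1 ∈ N ∨ (D ∩ S i).card = m)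
    (h2N : 2 ∈ N) :
    ∀ v, Rep ⊤ S (TT S w) (ZZ S w) v → Rep N S (TT S w) (ZZ S w) v := by
  classical
  refine good_of_mi hrow fun v hv => no_bad (Kmi_cov hK) (ideal_miK hrow hI) hm
    (fun i => hcard i.1 i.2) (T0 := Tm S w) ?_ h2N _ _ _ _ subset_rfl rfl (pat_mi hrow) v hv
  rintro C ⟨B, hB, hZ, hC⟩ i hi
  rw [Kmi_inter hZ hC i]
  exact hint B hB hZ i.1 (mem_Tm.1 hi)

end Pool.Agent.Dyad5
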