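import Pool.Agent.Dyad5.StepA
import Pool.Agent.Dyad4.NoBad

/-!
# No face is bad when rows have at most `m` elements and only intersections of size `m` are bad
-/

set_option autoImplicit false
set_option linter.unusedSectionVars false
set_option linter.unusedVariables false

namespace Pool.Agent.Dyad5

open Finset Filter Topology Pool.Agent.Dyad4

variable {ι α : Type*} [Fintype ι] [Fintype α] [DecidableEq ι] [DecidableEq α]
  {S : ι → Finset α} {T : Finset ι} {Z : Finset α} {x : α → ℝ} {N : Submonoid ℕ}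
  {K : Finset α → Prop}

/-- **Main lemma.** -/
theorem no_bad (hK : ∀ B, K B → Cov S B) (hI : IdealK S K) {m : ℕ} (hm : 2 ≤ m)
    (hcard : ∀ i, (S i).card ≤ m) {T0 : Finset ι}
    (hint : ∀ D, K D → ∀ i ∈ T0,
      (D ∩ S i).card = 1 ∨ (D ∩ S i).card - 1 ∈ N ∨ (D ∩ S i).card = m)
    (h2N : 2 ∈ N) :
    ∀ (n : ℕ) (T : Finset ι) (Z : Finset α) (x : α → ℝ), T ⊆ T0 →
      (Fintype.card α - Z.card) * (Fintype.card ι + 1) + T.card = n → Pat S T Z x →
      ∀ v, Rep ⊤ S T Z v → Rep N S T Z v := by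
  classical
  have hI' : IdealS S := hI.ideal hK
  have hcard' : ∀ i, (S i).card ≤ (m - 1) + 1 := fun i => by
    have := hcard i
    omega
  intro n
  induction n using Nat.strong_induction_on with
  | _ n ih =>
  intro T Z x hTT hn hx v₀ h0
  by_contra hbad
  have hint' : ∀ D, K D → ∀ i ∈ T,
      (D ∩ S i).card = 1 ∨ (D ∩ S i).card - 1 ∈ N ∨ (D ∩ S i).card = m :=
    fun D hD i hi => hint D hD i (hTT hi)
  -- the two induction hypotheses
  have IHT : ∀ T' ⊆ T, T' ≠ T → (∃ x', Pat S T' Z x') → ∀ u, Rep ⊤ S T' Z u → Rep N S T' Z u := by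
    intro T' hT' hne hx' u hu
    obtain ⟨x', hx'⟩ := hx'
    refine ih _ ?_ T' Z x' (hT'.trans hTT) rfl hx' u hu
    have : T'.card < T.card := card_lt_card (lt_of_le_of_ne hT' hne)
    omega
  have IHZ : ∀ Z', Z ⊆ Z' → Z ≠ Z' → (∃ x', Pat S T Z' x') →
      ∀ u, Rep ⊤ S T Z' u → Rep N S T Z' u := by
    intro Z' hZ' hne hx' u hu
    obtain ⟨x', hx'⟩ := hx'
    refine ih _ ?_ T Z' x' hTT rfl hx' u hu
    have h1 : Z.card < Z'.card := card_lt_card (lt_of_le_of_ne hZ' hne)
    have h2 : Z'.card ≤ Fintype.card α := card_le_univ Z'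
    have h3 : (Fintype.card α - Z'.card) * (Fintype.card ι + 1)
        < (Fintype.card α - Z.card) * (Fintype.card ι + 1) :=
      Nat.mul_lt_mul_of_pos_right (by omega) (Nat.succ_pos _)
    omega
  obtain ⟨B, hB⟩ := hx.exists_fcov hI'
  -- the rows in `T`
  have hrows : ∀ i ∈ T, (S i).card = m ∧ ∀ a ∈ S i, a ∉ Z := by
    intro i hi
    obtain ⟨δ, hδ, hne⟩ := Fac.exists (S := S) (T := T) (Z := Z) (v := chi (S i)) (η₀ := x)
      (Rep.row hi) hx.zero (fun j hj => by rw [hx.tight j hj]; exact zero_le_one) (by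
        rw [pr_chi, hx.tight i hi]
        exact one_ne_zero)
    rw [pr_chi] at hne
    obtain ⟨D, hDZ, -, hD, -⟩ := stepA hK hI hcard hint' hx h0 hbad IHT hB hδ
    obtain ⟨h1, h2⟩ := hD i hi hne
    exact ⟨h2, fun a ha haZ => hDZ a haZ (h1 ha)⟩
  have hrows' : ∀ i ∈ T, (S i).card = (m - 1) + 1 := fun i hi => by
    have := (hrows i hi).1
    omega
  obtain ⟨e, f, hef, heZ, heB, hfB, ⟨i1, hi1, hei1⟩, hP, hPbad⟩ :=
    stepB (p := m - 1) (by omega) hcard' hrows' (fun i hi => (hrows i hi).2) hx h0 hbad IHZ hB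
  obtain ⟨B2, hB2, heB2⟩ := hx.exists_fcov_mem hI' hi1 hei1 heZ
  obtain ⟨e', f', hef', heZ', heB', hfB', -, hP', hPbad'⟩ :=
    stepB (p := m - 1) (by omega) hcard' hrows' (fun i hi => (hrows i hi).2) hx h0 hbad IHZ hB2
  have hee' : e ≠ e' := fun h => heB' (h ▸ heB2)
  have hef'' : e ≠ f' := fun h => hfB' (h ▸ heB2)
  -- membership of the second pair in `B`
  have hB' : ((if e' ∈ B then 1 else 0) - (if f' ∈ B then 1 else 0) : ℤ) = 0 := by
    have h1 := hP'.pr_eq_zero (η := dif B2 B) (fun a ha => by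
      simp [dif, hB2.disj a ha, hB.disj a ha]) (fun i hi => by
      rw [ev_dif, hB.one i hi, hB2.one i hi, sub_self])
    rw [pr_dif, ell_pair] at h1
    simp only [heB', hfB', if_false, sub_zero] at h1
    exact_mod_cast h1
  -- values on the facets
  have hval : ∀ D : Finset α, ell B D (pair e f) ≠ 0 →
      ell B D (pair e f) = 1 ∨ ell B D (pair e f) = -1 := by
    intro D hD
    rw [ell_pair] at hD ⊢
    simp only [heB, hfB, if_false, sub_zero] at hD ⊢
    split_ifs at hD ⊢ <;> simp_all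
  have hval' : ∀ D : Finset α, ell B D (pair e' f') ≠ 0 →
      ell B D (pair e' f') = 1 ∨ ell B D (pair e' f') = -1 := by
    intro D hD
    rw [ell_pair, hB'] at hD ⊢
    simp only [sub_zero] at hD ⊢
    split_ifs at hD ⊢ <;> simp_all
  -- separation
  have hsep : ∀ u : α → ℤ, Rep ⊤ S T Z u → u e = 1 → ∃ δ, Fac S T Z δ ∧ pr δ u ≠ 0 := by
    intro u hu hue
    refine Fac.exists hu (η₀ := fun a => if a ∈ ({e} : Finset α) then 1 else 0)
      (fun a ha => ?_) (fun i hi => ?_) ?_
    · have : a ≠ e := fun h => heZ (h ▸ ha)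
      simp [this]
    · rw [ev_ind]
      positivity
    · have h1 : pr (fun a => if a ∈ ({e} : Finset α) then (1 : ℝ) else 0) u = u e := by
        unfold pr
        rw [sum_eq_single e]
        · simp
        · intro b _ hb
          simp [hb]
        · intro h
          exact absurd (mem_univ e) h
      rw [h1, hue]
      norm_num
  have hfac : ∀ δ, Fac S T Z δ → ∃ D : Finset α,
      (∀ v, Rep ⊤ S T Z v → (ell B D v = 0 ↔ pr δ v = 0)) ∧
      ∀ v, Rep ⊤ S T Z v → ell B D v = 0 → Rep N S T Z v := by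
    intro δ hδ
    obtain ⟨D, -, h1, -, h2⟩ := stepA hK hI hcard hint' hx h0 hbad IHT hB hδ
    exact ⟨D, h1, h2⟩
  by_cases hcase : Rep N S T Z (fun a => pair e f a - pair e' f' a)
  · have hnsum : ¬ Rep N S T Z (fun a => pair e f a + pair e' f' a) := by
      intro h
      refine hPbad (Rep.of_mul h2N two_pos ?_)
      exact (h.add hcase).congr fun a _ => by push_cast; ring
    obtain ⟨δ, hδ, hne⟩ := hsep (fun a => pair e f a - pair e' f' a) (hP.sub hP') (by
      simp [pair, hef, hee', hef''])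
    obtain ⟨D, hD1, hD2⟩ := hfac δ hδ
    have h2 := hval D fun h => hPbad (hD2 _ hP h)
    have h3 := hval' D fun h => hPbad' (hD2 _ hP' h)
    have h4 : ell B D (fun a => pair e f a - pair e' f' a) ≠ 0 := fun h =>
      hne ((hD1 _ (hP.sub hP')).1 h)
    have h5 : ell B D (fun a => pair e f a + pair e' f' a) ≠ 0 := fun h =>
      hnsum (hD2 _ (hP.add hP') h)
    rw [ell_sub] at h4
    rw [ell_add] at h5
    rcases h2 with h2 | h2 <;> rcases h3 with h3 | h3 <;> omega
  · obtain ⟨δ, hδ, hne⟩ := hsep (fun a => pair e f a + pair e' f' a) (hP.add hP') (by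
      simp [pair, hef, hee', hef''])
    obtain ⟨D, hD1, hD2⟩ := hfac δ hδ
    have h2 := hval D fun h => hPbad (hD2 _ hP h)
    have h3 := hval' D fun h => hPbad' (hD2 _ hP' h)
    have h4 : ell B D (fun a => pair e f a + pair e' f' a) ≠ 0 := fun h =>
      hne ((hD1 _ (hP.add hP')).1 h)
    have h5 : ell B D (fun a => pair e f a - pair e' f' a) ≠ 0 := fun h =>
      hcase (hD2 _ (hP.sub hP') h)
    rw [ell_add] at h4
    rw [ell_sub] at h5
    rcases h2 with h2 | h2 <;> rcases h3 with h3 | h3 <;> omega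

end Pool.Agent.Dyad5
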