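import Pool.Agent.Dyad4.StepB

/-!
# Distributions on a given class of covers
-/

set_option autoImplicit false
set_option linter.unusedSectionVars false
set_option linter.unusedVariables false

namespace Pool.Agent.Dyad5

open Finset Filter Topology Pool.Agent.Dyad4

variable {ι α : Type*} [Fintype ι] [Fintype α] [DecidableEq ι] [DecidableEq α]

/-- every point dominates, in every nonnegative direction, a cover of the class `K` -/
def IdealK (S : ι → Finset α) (K : Finset α → Prop) : Prop :=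
  ∀ w : α → ℝ, (∀ a, 0 ≤ w a) → ∀ x, InPoly S x → ∃ B, K B ∧ ev w B ≤ ∑ a, w a * x a

variable {S : ι → Finset α} {T : Finset ι} {Z : Finset α} {x : α → ℝ} {K : Finset α → Prop}

lemma IdealK.ideal (hK : ∀ B, K B → Cov S B) (h : IdealK S K) : IdealS S := by
  intro w hw x hx
  obtain ⟨B, hB, hle⟩ := h w hw x hx
  exact ⟨B, hK B hB, hle⟩

theorem exists_distK (hI : IdealK S K) (hx : InPoly S x) :
    ∃ l : Finset α → ℝ, (∀ B, 0 ≤ l B) ∧ (∀ B, l B ≠ 0 → K B) ∧ ∑ B, l B = 1 ∧
      ∀ a, ∑ B, (if a ∈ B then l B else 0) ≤ x a := by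
  classical
  suffices H : ∃ l : Finset α → ℝ, (∀ B, 0 ≤ l B) ∧ (∀ B, l B ≠ 0 → K B) ∧ 1 ≤ ∑ B, l B ∧
      ∀ a, ∑ B, (if a ∈ B then l B else 0) ≤ x a by
    obtain ⟨l, h1, h2, h3, h4⟩ := H
    have h5 : 0 < ∑ B, l B := by linarith
    refine ⟨fun B => l B / ∑ C, l C, fun B => div_nonneg (h1 B) h5.le, fun B hB => h2 B ?_, ?_,
      fun a => ?_⟩
    · intro h
      exact hB (by show l B / ∑ C, l C = 0; rw [h, zero_div])
    · rw [← sum_div]
      exact div_self h5.ne'
    · have h6 : ∑ B, (if a ∈ B then l B / ∑ C, l C else 0)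
          = (∑ B, if a ∈ B then l B else 0) / ∑ C, l C := by
        rw [sum_div]
        refine sum_congr rfl fun B _ => ?_
        split_ifs <;> simp
      rw [h6]
      refine (div_le_self (sum_nonneg fun B _ => ?_) h3).trans (h4 a)
      split_ifs
      · exact h1 B
      · exact le_rfl
  set M : Finset α → ℝ := fun B => if K B then 1 else 0 with hM
  have hM0 : ∀ B, 0 ≤ M B := fun B => by
    simp only [hM]
    split_ifs <;> norm_num
  have hone : ∀ y : Finset α → ℝ, (fun _ => (1 : ℝ)) ⬝ᵥ y = ∑ B, y B := fun y => by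
    simp [dotProduct]
  have hg : ∀ (a : α) (y : Finset α → ℝ), (fun B : Finset α => if a ∈ B then (1 : ℝ) else 0) ⬝ᵥ y
      = ∑ B, if a ∈ B then y B else 0 := fun a y => by
    simp [dotProduct]
  obtain ⟨l, hl, hl2, hl3⟩ := Pool.Agent.MP9a04dc.lp_duality (J := Finset α) (I := α)
    (Set.Icc 0 M) isCompact_Icc (convex_Icc _ _)
    (fun a B => if a ∈ B then 1 else 0) x (fun _ => 1) 1 0 ⟨le_rfl, hM0⟩
    (fun a => by simpa using hx.1 a) (by
      intro z hz
      obtain ⟨B, hB, hBz⟩ := hI z hz x hx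
      refine ⟨fun C => if C = B then 1 else 0, ⟨fun C => ?_, fun C => ?_⟩, ?_⟩
      · show (0 : ℝ) ≤ if C = B then 1 else 0
        split_ifs <;> norm_num
      · show (if C = B then (1 : ℝ) else 0) ≤ M C
        split_ifs with h
        · subst h
          simp [hM, hB]
        · exact hM0 C
      · rw [hone]
        have h1 : ∀ a, (fun C : Finset α => if a ∈ C then (1 : ℝ) else 0) ⬝ᵥ
            (fun C => if C = B then (1 : ℝ) else 0) = if a ∈ B then 1 else 0 := by
          intro a
          simp [dotProduct]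
        simp only [h1, sum_ite_eq', mem_univ, if_true, mul_sub, sum_sub_distrib, mul_ite, mul_one,
          mul_zero]
        have h2 : ∑ a, (if a ∈ B then z a else 0) = ev z B := by
          unfold ev
          rw [← sum_filter]
          congr 1
          ext a
          simp
        rw [h2]
        linarith)
  refine ⟨l, fun B => hl.1 B, fun B hB => ?_, ?_, fun a => ?_⟩
  · by_contra hcon
    have h1 : l B ≤ M B := hl.2 B
    simp only [hM, hcon, if_false] at h1
    exact hB (le_antisymm h1 (hl.1 B))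
  · rw [← hone]
    exact hl3
  · rw [← hg]
    exact hl2 a

/-- a distribution on the covers of the face that belong to `K` -/
theorem pat_exists_distK (hK : ∀ B, K B → Cov S B) (hI : IdealK S K) (h : Pat S T Z x) :
    ∃ l : Finset α → ℝ, (∀ B, 0 ≤ l B) ∧ (∀ B, l B ≠ 0 → FCov S T Z B ∧ K B) ∧ ∑ B, l B = 1 ∧
      (∀ a, ∑ B, (if a ∈ B then l B else 0) ≤ x a) ∧
      ∀ i ∈ T, ∀ a ∈ S i, ∑ B, (if a ∈ B then l B else 0) = x a := by
  obtain ⟨l, h0, hc, h1, h2⟩ := exists_distK hI h.inPoly
  have hc' : ∀ B, l B ≠ 0 → Cov S B := fun B hB => hK B (hc B hB)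
  refine ⟨l, h0, fun B hB => ⟨⟨hc' B hB, fun a ha => dist_zero h0 h2 (h.zero a ha) hB,
    fun i hi => (dist_tight h0 hc' h1.ge h2 (h.tight i hi)).1 B hB⟩, hc B hB⟩, h1, h2,
    fun i hi a ha => (dist_tight h0 hc' h1.ge h2 (h.tight i hi)).2 a ha⟩

end Pool.Agent.Dyad5
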